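import Mathlib

open Filter Topology

namespace Pool.Agent.Results.MP_8f7167_an.TBasisNotGamma

section Defs

variable (𝕜 : Type*) [RCLike 𝕜] {E : Type*} [NormedAddCommGroup E] [NormedSpace 𝕜 E]

/-- `(x_n)` is an M-basis with associated functionals `(f_n)`. -/
structure IsMBasis (x : ℕ → E) (f : ℕ → StrongDual 𝕜 E) : Prop where
  biorth : ∀ i j, f i (x j) = if i = j then 1 else 0
  dense : (Submodule.span 𝕜 (Set.range x)).topologicalClosure = ⊤
  total : ∀ v : E, (∀ n, f n v = 0) → v = 0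

/-- Consistent matrices. -/
structure IsConsistent (T : ℕ → ℕ → 𝕜) : Prop where
  bound : ∃ C : ℝ, ∀ n, Summable (fun m => ‖T n m‖) ∧ ∑' m, ‖T n m‖ ≤ C
  col : ∀ m, Tendsto (fun n => T n m) atTop (𝓝 0)
  row : Tendsto (fun n => ∑' m, T n m) atTop (𝓝 1)

variable {𝕜}

/-- `σ_{nm} = ∑_{j < m} t_{nj} ∑_{i ≤ j} α_i x_i`. -/
def sig (T : ℕ → ℕ → 𝕜) (x : ℕ → E) (α : ℕ → 𝕜) (n m : ℕ) : E :=
  ∑ j ∈ Finset.range m, T n j • ∑ i ∈ Finset.range (j + 1), α i • x i

/-- For every `n` the limit `σ_n` of `σ_{nm}` exists, and `σ_n → v`. -/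
def TExpansion (T : ℕ → ℕ → 𝕜) (x : ℕ → E) (α : ℕ → 𝕜) (v : E) : Prop :=
  ∃ σ : ℕ → E, (∀ n, Tendsto (fun m => sig T x α n m) atTop (𝓝 (σ n))) ∧ Tendsto σ atTop (𝓝 v)

/-- `(x_n)` is a `T`-basis. -/
def IsTBasis (T : ℕ → ℕ → 𝕜) (x : ℕ → E) : Prop := ∀ v : E, ∃! α : ℕ → 𝕜, TExpansion T x α v

/-- The tail sums `λ_{nm} = ∑_{j ≥ m} t_{nj}`. -/
noncomputable def lam (T : ℕ → ℕ → 𝕜) (n m : ℕ) : 𝕜 := ∑' j, T n (j + m)

/-- The M-basis `(x_n)` with functionals `(f_n)` is a `γ`-basis with respect to the matrix `Λ`. -/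
def IsGammaBasis (Λ : ℕ → ℕ → 𝕜) (x : ℕ → E) (f : ℕ → StrongDual 𝕜 E) : Prop :=
  ∀ v : E, ∃ τ : ℕ → E,
    (∀ n, Tendsto (fun m => ∑ i ∈ Finset.range m, (Λ n i * f i v) • x i) atTop (𝓝 (τ n))) ∧
      Tendsto τ atTop (𝓝 v)

end Defs

/-! ### The matrix -/

/-- The real matrix. -/
noncomputable def t (n j : ℕ) : ℝ := if j % 2 = 1 ∧ n ≤ j / 2 then (1 / 2) ^ (j / 2 - n + 1) else 0

theorem t_odd (n k : ℕ) : t n (2 * (n + k) + 1) = (1 / 2) ^ (k + 1) := by
  unfold t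
  rw [if_pos ⟨by omega, by omega⟩]
  congr 1
  omega

theorem t_nonneg (n j : ℕ) : 0 ≤ t n j := by
  unfold t
  split_ifs <;> positivity

theorem hasSum_t (n : ℕ) : HasSum (t n) 1 := by
  have hinj : Function.Injective (fun k => 2 * (n + k) + 1) := by
    intro a b h
    simp only at h
    omega
  rw [← hinj.hasSum_iff]
  · have h1 : (t n ∘ fun k => 2 * (n + k) + 1) = fun k => (1 / 2) * (1 / 2) ^ k := by
      funext k
      simp only [Function.comp]
      rw [t_odd, pow_succ]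
      ring
    rw [h1]
    have := hasSum_geometric_two.mul_left (1 / 2 : ℝ)
    simpa using this
  · intro j hj
    unfold t
    rw [if_neg]
    rintro ⟨h1, h2⟩
    apply hj
    exact ⟨j / 2 - n, by simp only; omega⟩

variable (𝕜 : Type) [RCLike 𝕜]

/-- The scalar matrix. -/
noncomputable def T (n j : ℕ) : 𝕜 := ((t n j : ℝ) : 𝕜)

theorem T_even (n l : ℕ) : T 𝕜 n (2 * l) = 0 := by
  unfold T t
  rw [if_neg]
  · simp
  · rintro ⟨h, _⟩
    omega

theorem T_odd (n l : ℕ) : T 𝕜 n (2 * l + 1) = if n ≤ l then (1 / 2) ^ (l - n + 1) else 0 := by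
  unfold T t
  have h1 : (2 * l + 1) / 2 = l := by omega
  have h2 : (2 * l + 1) % 2 = 1 := by omega
  rw [h1, h2]
  by_cases h : n ≤ l
  · rw [if_pos ⟨rfl, h⟩, if_pos h, RCLike.ofReal_pow, RCLike.ofReal_div, RCLike.ofReal_one,
      RCLike.ofReal_ofNat]
  · simp [h]

theorem hasSum_T (n : ℕ) : HasSum (T 𝕜 n) 1 := by
  have := (hasSum_t n).map (RCLike.ofRealCLM (K := 𝕜)) (RCLike.ofRealCLM (K := 𝕜)).continuous
  have e : (RCLike.ofRealCLM (K := 𝕜)) 1 = 1 := by simp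
  rw [e] at this
  exact this

theorem norm_T (n j : ℕ) : ‖T 𝕜 n j‖ = t n j := by
  rw [T, RCLike.norm_ofReal, abs_of_nonneg (t_nonneg n j)]

theorem consistent : IsConsistent 𝕜 (T 𝕜) := by
  refine ⟨⟨1, fun n => ?_⟩, fun m => ?_, ?_⟩
  · simp only [norm_T]
    exact ⟨(hasSum_t n).summable, (hasSum_t n).tsum_eq.le⟩
  · apply tendsto_const_nhds.congr'
    filter_upwards [eventually_gt_atTop m] with n hn
    unfold T t
    rw [if_neg]
    · simp
    · rintro ⟨_, h⟩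
      omega
  · simp only [(hasSum_T 𝕜 _).tsum_eq]
    exact tendsto_const_nhds

/-! ### Abstract facts about `σ_{nm}` -/

section Abstract
variable {𝕜}
variable {E : Type*} [NormedAddCommGroup E] [NormedSpace 𝕜 E]

/-- Even partial sums. -/
def ev (x : ℕ → E) (α : ℕ → 𝕜) (l : ℕ) : E := ∑ i ∈ Finset.range (2 * l + 2), α i • x i

theorem sig_eq (x : ℕ → E) (α : ℕ → 𝕜) (n m : ℕ) : sig (T 𝕜) x α n m
    = ∑ l ∈ Finset.range (m / 2), (if n ≤ l then ((1 / 2 : 𝕜)) ^ (l - n + 1) else 0) • ev x α l := by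
  induction m with
  | zero => simp [sig]
  | succ m ih =>
    have h1 : sig (T 𝕜) x α n (m + 1) = sig (T 𝕜) x α n m
        + T 𝕜 n m • ∑ i ∈ Finset.range (m + 1), α i • x i := by
      unfold sig
      rw [Finset.sum_range_succ]
    rw [h1, ih]
    rcases Nat.even_or_odd' m with ⟨l, rfl | rfl⟩
    · have e1 : 2 * l / 2 = l := by omega
      have e2 : (2 * l + 1) / 2 = l := by omega
      rw [e1, e2, T_even, zero_smul, add_zero]
    · have e1 : (2 * l + 1) / 2 = l := by omega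
      have e2 : (2 * l + 1 + 1) / 2 = l + 1 := by omega
      rw [e1, e2, T_odd]
      conv_rhs => rw [Finset.sum_range_succ]
      rfl

/-- The partial sums in closed form. -/
theorem sum_shift (B : ℕ → E) (n K : ℕ) :
    ∑ l ∈ Finset.range (n + K), (if n ≤ l then ((1 / 2 : 𝕜)) ^ (l - n + 1) else 0) • B l
      = ∑ k ∈ Finset.range K, ((1 / 2 : 𝕜)) ^ (k + 1) • B (n + k) := by
  rw [Finset.sum_range_add]
  have h1 : ∑ l ∈ Finset.range n, (if n ≤ l then ((1 / 2 : 𝕜)) ^ (l - n + 1) else 0) • B l = 0 := by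
    apply Finset.sum_eq_zero
    intro l hl
    rw [if_neg (not_le.mpr (Finset.mem_range.mp hl)), zero_smul]
  rw [h1, zero_add]
  refine Finset.sum_congr rfl (fun k _ => ?_)
  rw [if_pos (Nat.le_add_right n k), Nat.add_sub_cancel_left]

theorem tendsto_sig_iff (x : ℕ → E) (α : ℕ → 𝕜) (n : ℕ) (s : E) :
    Tendsto (fun m => sig (T 𝕜) x α n m) atTop (𝓝 s) ↔
      Tendsto (fun K => ∑ k ∈ Finset.range K, ((1 / 2 : 𝕜)) ^ (k + 1) • ev x α (n + k)) atTop
        (𝓝 s) := by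
  simp only [sig_eq, ← sum_shift (𝕜 := 𝕜) (ev x α) n]
  set G : ℕ → E := fun M =>
    ∑ l ∈ Finset.range M, (if n ≤ l then ((1 / 2 : 𝕜)) ^ (l - n + 1) else 0) • ev x α l with hG
  constructor
  · intro h
    have h1 : Tendsto (fun K : ℕ => 2 * (n + K)) atTop atTop :=
      tendsto_atTop_mono (fun K => by show K ≤ 2 * (n + K); omega) tendsto_id
    refine (h.comp h1).congr (fun K => ?_)
    simp only [Function.comp]
    have : 2 * (n + K) / 2 = n + K := by omega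
    rw [this]
  · intro h
    have h1 : Tendsto G atTop (𝓝 s) := by
      rw [← tendsto_add_atTop_iff_nat n]
      refine h.congr (fun K => ?_)
      rw [hG]
      simp only
      rw [add_comm]
    exact h1.comp (Nat.tendsto_div_const_atTop (by norm_num))

/-- The recursion `2 σ_n = (even partial sum) + σ_{n+1}`. -/
theorem recursion (x : ℕ → E) (α : ℕ → 𝕜) (σ : ℕ → E)
    (hσ : ∀ n, Tendsto (fun m => sig (T 𝕜) x α n m) atTop (𝓝 (σ n))) (n : ℕ) :
    ev x α n = (2 : 𝕜) • σ n - σ (n + 1) := by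
  have h1 := (tendsto_sig_iff x α n _).mp (hσ n)
  have h2 := (tendsto_sig_iff x α (n + 1) _).mp (hσ (n + 1))
  have h3 := (h1.comp (tendsto_add_atTop_nat 1)).const_smul (2 : 𝕜)
  have h4 : Tendsto (fun K => ev x α n
      + ∑ k ∈ Finset.range K, ((1 / 2 : 𝕜)) ^ (k + 1) • ev x α (n + 1 + k)) atTop
      (𝓝 ((2 : 𝕜) • σ n)) := by
    refine h3.congr (fun K => ?_)
    simp only [Function.comp]
    rw [Finset.sum_range_succ', smul_add, Finset.smul_sum, add_comm]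
    congr 1
    · rw [smul_smul]
      simp
    · refine Finset.sum_congr rfl (fun k _ => ?_)
      rw [smul_smul]
      congr 1
      · rw [pow_succ (1 / 2 : 𝕜) (k + 1)]
        ring
      · congr 1
        omega
  have h5 := h2.const_add (ev x α n)
  have h6 := tendsto_nhds_unique h4 h5
  rw [h6]
  abel

/-- If the even partial sums converge to `v`, there is a `T`-expansion. -/
theorem expansion_of_even [CompleteSpace E] (x : ℕ → E) (α : ℕ → 𝕜) (v : E)
    (h : Tendsto (ev x α) atTop (𝓝 v)) : TExpansion (T 𝕜) x α v := by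
  obtain ⟨M, hM⟩ := isBounded_iff_forall_norm_le.mp (Metric.isBounded_range_of_tendsto _ h)
  have hM' : ∀ l, ‖ev x α l‖ ≤ M := fun l => hM _ (Set.mem_range_self l)
  have hgeo : Summable (fun k : ℕ => (1 / 2 : ℝ) ^ (k + 1) * M) := by
    have := (summable_nat_add_iff 1).mpr summable_geometric_two
    exact this.mul_right M
  have hb : ∀ n k, ‖((1 / 2 : 𝕜)) ^ (k + 1) • ev x α (n + k)‖ ≤ (1 / 2 : ℝ) ^ (k + 1) * M := by
    intro n k
    rw [norm_smul, norm_pow]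
    have : ‖(1 / 2 : 𝕜)‖ = 1 / 2 := by simp
    rw [this]
    gcongr
    exact hM' _
  have hsum : ∀ n, Summable (fun k => ((1 / 2 : 𝕜)) ^ (k + 1) • ev x α (n + k)) := fun n =>
    Summable.of_norm_bounded hgeo (hb n)
  refine ⟨fun n => ∑' k, ((1 / 2 : 𝕜)) ^ (k + 1) • ev x α (n + k), fun n => ?_, ?_⟩
  · rw [tendsto_sig_iff]
    exact (hsum n).hasSum.tendsto_sum_nat
  · have h1 : v = ∑' k : ℕ, ((1 / 2 : 𝕜)) ^ (k + 1) • v := by
      have h2 : HasSum (fun k : ℕ => ((1 / 2 : 𝕜)) ^ (k + 1)) 1 := by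
        have h3 : HasSum (fun k : ℕ => (1 / 2 : 𝕜) * (1 / 2) ^ k) ((1 / 2 : 𝕜) * (1 - 1 / 2)⁻¹) := by
          apply HasSum.mul_left
          apply hasSum_geometric_of_norm_lt_one
          have : ‖(1 / 2 : 𝕜)‖ = 1 / 2 := by simp
          rw [this]
          norm_num
        have h4 : (1 / 2 : 𝕜) * (1 - 1 / 2)⁻¹ = 1 := by norm_num
        rw [h4] at h3
        have h5 : (fun k : ℕ => ((1 / 2 : 𝕜)) ^ (k + 1)) = fun k : ℕ => (1 / 2 : 𝕜) * (1 / 2) ^ k := by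
          funext k
          rw [pow_succ, mul_comm]
        rw [h5]
        exact h3
      have h5 := h2.smul_const v
      rw [one_smul] at h5
      exact h5.tsum_eq.symm
    conv => rhs; rw [h1]
    apply tendsto_tsum_of_dominated_convergence hgeo
    · intro k
      have h6 : Tendsto (fun n => ev x α (n + k)) atTop (𝓝 v) := h.comp (tendsto_add_atTop_nat k)
      exact h6.const_smul _
    · exact Eventually.of_forall (fun n k => hb n k)

end Abstract

/-! ### The basis of `ℓ²` -/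

/-- `ℓ²`. -/
abbrev L2 : Type := lp (fun _ : ℕ => 𝕜) 2

noncomputable def ev2 (j : ℕ) : L2 𝕜 →L[𝕜] 𝕜 := lp.evalCLM 𝕜 (fun _ : ℕ => 𝕜) 2 j

theorem ev2_apply (j : ℕ) (x : L2 𝕜) : ev2 𝕜 j x = x j := rfl

noncomputable def e (j : ℕ) : L2 𝕜 := lp.single 2 j (1 : 𝕜)

theorem e_apply (i j : ℕ) : e 𝕜 j i = if i = j then 1 else 0 := by
  rw [e, lp.single_apply]; simp [Pi.single_apply]

/-- `x_{2k} = e_{2k}`, `x_{2k+1} = e_{2k} + 4^{-k} e_{2k+1}`. -/
noncomputable def x (n : ℕ) : L2 𝕜 :=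
  if n % 2 = 0 then e 𝕜 n else e 𝕜 (n - 1) + ((1 / 4 : 𝕜) ^ (n / 2)) • e 𝕜 n

/-- `f_{2k}(v) = v_{2k} - 4^k v_{2k+1}`, `f_{2k+1}(v) = 4^k v_{2k+1}`. -/
noncomputable def f (n : ℕ) : StrongDual 𝕜 (L2 𝕜) :=
  if n % 2 = 0 then ev2 𝕜 n - ((4 : 𝕜) ^ (n / 2)) • ev2 𝕜 (n + 1) else ((4 : 𝕜) ^ (n / 2)) • ev2 𝕜 n

theorem x_even (k : ℕ) : x 𝕜 (2 * k) = e 𝕜 (2 * k) := by
  unfold x
  rw [if_pos (by omega)]

theorem x_odd (k : ℕ) : x 𝕜 (2 * k + 1) = e 𝕜 (2 * k) + ((1 / 4 : 𝕜) ^ k) • e 𝕜 (2 * k + 1) := by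
  unfold x
  have h1 : (2 * k + 1) / 2 = k := by omega
  rw [if_neg (by omega), h1, Nat.add_sub_cancel]

theorem f_even (k : ℕ) (v : L2 𝕜) : f 𝕜 (2 * k) v = v (2 * k) - (4 : 𝕜) ^ k * v (2 * k + 1) := by
  unfold f
  have h1 : (2 * k) / 2 = k := by omega
  rw [if_pos (by omega), h1]
  rfl

theorem f_odd (k : ℕ) (v : L2 𝕜) : f 𝕜 (2 * k + 1) v = (4 : 𝕜) ^ k * v (2 * k + 1) := by
  unfold f
  have h1 : (2 * k + 1) / 2 = k := by omega
  rw [if_neg (by omega), h1]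
  rfl

theorem four_mul (k : ℕ) : (4 : 𝕜) ^ k * (1 / 4) ^ k = 1 := by
  rw [← mul_pow]
  norm_num

theorem biorth (i j : ℕ) : f 𝕜 i (x 𝕜 j) = if i = j then 1 else 0 := by
  rcases Nat.even_or_odd' i with ⟨a, rfl | rfl⟩ <;> rcases Nat.even_or_odd' j with ⟨b, rfl | rfl⟩
  · rw [f_even, x_even, e_apply, e_apply, if_neg (show ¬ 2 * a + 1 = 2 * b by omega)]
    simp
  · rw [f_even, x_odd, lp.coeFn_add, lp.coeFn_smul, Pi.add_apply, Pi.add_apply, Pi.smul_apply,
      Pi.smul_apply, e_apply, e_apply, e_apply, e_apply,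
      if_neg (show ¬ 2 * a = 2 * b + 1 by omega), if_neg (show ¬ 2 * a + 1 = 2 * b by omega)]
    by_cases h : a = b
    · subst h
      simp only [if_true, smul_eq_mul, mul_one, mul_zero, add_zero, zero_add]
      rw [four_mul, sub_self]
    · rw [if_neg (by omega), if_neg (by omega)]
      simp
  · rw [f_odd, x_even, e_apply, if_neg (show ¬ 2 * a + 1 = 2 * b by omega)]
    simp
  · rw [f_odd, x_odd, lp.coeFn_add, lp.coeFn_smul, Pi.add_apply, Pi.smul_apply, e_apply, e_apply,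
      if_neg (show ¬ 2 * a + 1 = 2 * b by omega)]
    by_cases h : a = b
    · subst h
      simp only [if_true, smul_eq_mul, mul_one, zero_add]
      exact four_mul 𝕜 a
    · rw [if_neg (by omega)]
      simp [h]

theorem ev_eq (v : L2 𝕜) (l : ℕ) :
    ev (x 𝕜) (fun i => f 𝕜 i v) l = ∑ i ∈ Finset.range (2 * l + 2), lp.single 2 i (v i) := by
  have hs : ∀ i, (lp.single 2 i (v i) : L2 𝕜) = v i • e 𝕜 i := by
    intro i
    rw [e, ← lp.single_smul, smul_eq_mul, mul_one]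
  have key : ∀ k, f 𝕜 (2 * k) v • x 𝕜 (2 * k) + f 𝕜 (2 * k + 1) v • x 𝕜 (2 * k + 1)
      = v (2 * k) • e 𝕜 (2 * k) + v (2 * k + 1) • e 𝕜 (2 * k + 1) := by
    intro k
    rw [f_even, f_odd, x_even, x_odd, smul_add, smul_smul]
    have h1 : (4 : 𝕜) ^ k * v (2 * k + 1) * (1 / 4) ^ k = v (2 * k + 1) := by
      calc _ = ((4 : 𝕜) ^ k * (1 / 4) ^ k) * v (2 * k + 1) := by ring
        _ = _ := by rw [four_mul, one_mul]
    rw [h1]
    module
  unfold ev
  induction l with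
  | zero =>
    have := key 0
    simp only [mul_zero, zero_add] at this
    simp only [mul_zero, zero_add, Finset.sum_range_succ, Finset.sum_range_zero, hs]
    simpa using this
  | succ l ih =>
    have e1 : 2 * (l + 1) + 2 = 2 * l + 2 + 1 + 1 := by ring
    rw [e1, Finset.sum_range_succ, Finset.sum_range_succ, ih, Finset.sum_range_succ _ (2 * l + 2 + 1),
      Finset.sum_range_succ _ (2 * l + 2), add_assoc, add_assoc, hs (2 * l + 2), hs (2 * l + 2 + 1)]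
    congr 1
    exact key (l + 1)

theorem tendsto_ev (v : L2 𝕜) : Tendsto (ev (x 𝕜) (fun i => f 𝕜 i v)) atTop (𝓝 v) := by
  have h1 := (lp.hasSum_single (p := 2) (by norm_num) v).tendsto_sum_nat
  have h2 : Tendsto (fun l : ℕ => 2 * l + 2) atTop atTop :=
    tendsto_atTop_mono (fun l => by show l ≤ 2 * l + 2; omega) tendsto_id
  refine (h1.comp h2).congr (fun l => ?_)
  rw [ev_eq]
  rfl

theorem isMBasis : IsMBasis 𝕜 (x 𝕜) (f 𝕜) := by
  refine ⟨biorth 𝕜, ?_, ?_⟩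
  · rw [eq_top_iff]
    rintro v -
    refine mem_closure_of_tendsto (tendsto_ev 𝕜 v) (Eventually.of_forall (fun l => ?_))
    exact Submodule.sum_mem _ (fun i _ => Submodule.smul_mem _ _ (Submodule.subset_span ⟨_, rfl⟩))
  · intro v hv
    have h1 := tendsto_ev 𝕜 v
    have h2 : ev (x 𝕜) (fun i => f 𝕜 i v) = fun _ => 0 := by
      funext l
      unfold ev
      apply Finset.sum_eq_zero
      intro i _
      simp only [hv, zero_smul]
    rw [h2] at h1
    exact tendsto_nhds_unique h1 tendsto_const_nhds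

theorem isTBasis : IsTBasis (T 𝕜) (x 𝕜) := by
  intro v
  refine ⟨fun i => f 𝕜 i v, expansion_of_even _ _ _ (tendsto_ev 𝕜 v), ?_⟩
  rintro β ⟨σ, hσ, hσv⟩
  have h1 : Tendsto (ev (x 𝕜) β) atTop (𝓝 v) := by
    have h2 : Tendsto (fun n => (2 : 𝕜) • σ n - σ (n + 1)) atTop (𝓝 ((2 : 𝕜) • v - v)) :=
      (hσv.const_smul 2).sub (hσv.comp (tendsto_add_atTop_nat 1))
    have h3 : (2 : 𝕜) • v - v = v := by
      rw [two_smul, add_sub_cancel_right]
    rw [h3] at h2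
    exact h2.congr (fun n => (recursion _ _ σ hσ n).symm)
  funext n
  have h4 := ((f 𝕜 n).continuous.tendsto v).comp h1
  have h5 : Tendsto ((f 𝕜 n) ∘ ev (x 𝕜) β) atTop (𝓝 (β n)) := by
    apply tendsto_const_nhds.congr'
    filter_upwards [eventually_ge_atTop n] with m hm
    simp only [Function.comp, ev, map_sum, map_smul, biorth, smul_eq_mul, mul_ite, mul_one, mul_zero]
    rw [Finset.sum_ite_eq, if_pos (Finset.mem_range.mpr (by omega))]
  exact tendsto_nhds_unique h5 h4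

/-- The bad vector. -/
noncomputable def bad : L2 𝕜 := ⟨fun n => if n % 2 = 1 then ((1 / ((n : ℝ) + 1) : ℝ) : 𝕜) else 0, by
  apply memℓp_gen
  have h1 : Summable (fun n : ℕ => 1 / ((n : ℝ) + 1) ^ 2) := by
    have := (summable_nat_add_iff 1).mpr (Real.summable_one_div_nat_pow.mpr one_lt_two)
    simpa using this
  refine Summable.of_nonneg_of_le (fun n => by positivity) (fun n => ?_) h1
  have h2 : (2 : ENNReal).toReal = ((2 : ℕ) : ℝ) := by norm_num
  rw [h2, Real.rpow_natCast]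
  split_ifs
  · rw [RCLike.norm_ofReal, abs_of_nonneg (by positivity)]
    simp
  · simp
    positivity⟩

theorem bad_even (k : ℕ) : (bad 𝕜) (2 * k) = 0 := by
  show (if (2 * k) % 2 = 1 then _ else (0 : 𝕜)) = 0
  rw [if_neg (by omega)]

theorem bad_odd (k : ℕ) : (bad 𝕜) (2 * k + 1) = ((1 / (((2 * k + 1 : ℕ) : ℝ) + 1) : ℝ) : 𝕜) := by
  show (if (2 * k + 1) % 2 = 1 then _ else (0 : 𝕜)) = _
  rw [if_pos (by omega)]

theorem lam_lower (k : ℕ) : (1 / 2 : ℝ) ^ (k + 1) ≤ ‖lam (T 𝕜) 0 (2 * k)‖ := by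
  have h1 : Summable (fun j => t 0 (j + 2 * k)) := (summable_nat_add_iff (2 * k)).mpr (hasSum_t 0).summable
  have h2 : lam (T 𝕜) 0 (2 * k) = ((∑' j, t 0 (j + 2 * k) : ℝ) : 𝕜) := by
    unfold lam T
    rw [RCLike.ofReal_tsum]
  rw [h2, RCLike.norm_ofReal, abs_of_nonneg (tsum_nonneg (fun j => t_nonneg _ _))]
  have h3 := h1.le_tsum 1 (fun j _ => t_nonneg _ _)
  have h4 : t 0 (1 + 2 * k) = (1 / 2) ^ (k + 1) := by
    have := t_odd 0 k
    rw [zero_add] at this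
    rw [← this]
    congr 1
    ring
  rw [← h4]
  exact h3

theorem not_gamma : ¬ IsGammaBasis (lam (T 𝕜)) (x 𝕜) (f 𝕜) := by
  intro h
  obtain ⟨τ, hτ, _⟩ := h (bad 𝕜)
  have h1 := hτ 0
  -- the terms tend to zero
  have h2 : Tendsto (fun m => (lam (T 𝕜) 0 m * f 𝕜 m (bad 𝕜)) • x 𝕜 m) atTop (𝓝 0) := by
    have h3 := (h1.comp (tendsto_add_atTop_nat 1)).sub h1
    rw [sub_self] at h3
    refine h3.congr (fun m => ?_)
    simp only [Function.comp]
    rw [Finset.sum_range_succ, add_sub_cancel_left]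
  have h4 : Tendsto (fun k : ℕ => 2 * k) atTop atTop :=
    tendsto_atTop_mono (fun k => by show k ≤ 2 * k; omega) tendsto_id
  have h5 := (h2.comp h4).norm
  rw [norm_zero] at h5
  have h6 : ∀ k : ℕ, (1 / 4 : ℝ) ≤ ‖(lam (T 𝕜) 0 (2 * k) * f 𝕜 (2 * k) (bad 𝕜)) • x 𝕜 (2 * k)‖ := by
    intro k
    have e1 : ‖x 𝕜 (2 * k)‖ = 1 := by
      rw [x_even, e, lp.norm_single (by norm_num)]
      simp
    have e2 : ‖f 𝕜 (2 * k) (bad 𝕜)‖ = (4 : ℝ) ^ k * (1 / (((2 * k + 1 : ℕ) : ℝ) + 1)) := by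
      rw [f_even, bad_even, bad_odd, zero_sub, norm_neg, norm_mul, norm_pow, RCLike.norm_ofReal,
        abs_of_nonneg (by positivity)]
      have : ‖(4 : 𝕜)‖ = 4 := by simp
      rw [this]
    rw [norm_smul, norm_mul, e1, mul_one, e2]
    have e3 := lam_lower 𝕜 k
    have e4 : (1 / 2 : ℝ) ^ (k + 1) * ((4 : ℝ) ^ k * (1 / (((2 * k + 1 : ℕ) : ℝ) + 1)))
        = (2 : ℝ) ^ k / (4 * ((k : ℝ) + 1)) := by
      have e5 : (4 : ℝ) ^ k = 2 ^ k * 2 ^ k := by rw [← mul_pow]; norm_num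
      have e6 : (1 / 2 : ℝ) ^ (k + 1) = 1 / (2 ^ k * 2) := by
        rw [one_div_pow, pow_succ]
      rw [e5, e6]
      push_cast
      field_simp
      ring
    have e7 : ((k : ℝ) + 1) ≤ 2 ^ k := by
      have := @Nat.lt_two_pow_self k
      have h8 : k + 1 ≤ 2 ^ k := this
      exact_mod_cast h8
    have e8 : (1 / 4 : ℝ) ≤ (2 : ℝ) ^ k / (4 * ((k : ℝ) + 1)) := by
      rw [div_le_div_iff₀ (by norm_num) (by positivity)]
      linarith
    calc (1 / 4 : ℝ) ≤ (1 / 2 : ℝ) ^ (k + 1) * ((4 : ℝ) ^ k * (1 / (((2 * k + 1 : ℕ) : ℝ) + 1))) := by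
          rw [e4]; exact e8
      _ ≤ _ := by
          apply mul_le_mul_of_nonneg_right e3
          positivity
  have h7 := ge_of_tendsto h5 (Eventually.of_forall h6)
  norm_num at h7

end Pool.Agent.Results.MP_8f7167_an.TBasisNotGamma

open Pool.Agent.Results.MP_8f7167_an.TBasisNotGamma in
/-- A consistent matrix `T` and a `T`-basis of a Hilbert space which is not a `γ`-basis with respect
to the matrix of tail sums. -/
theorem Pool.Agent.Results.MP_8f7167_an.TBasisNotGamma.result (𝕜 : Type) [RCLike 𝕜] :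
    ∃ (T : ℕ → ℕ → 𝕜) (E : Type) (_ : NormedAddCommGroup E) (_ : NormedSpace 𝕜 E)
      (_ : CompleteSpace E) (x : ℕ → E) (f : ℕ → StrongDual 𝕜 E),
      IsConsistent 𝕜 T ∧ IsMBasis 𝕜 x f ∧ IsTBasis T x ∧ ¬ IsGammaBasis (lam T) x f :=
  ⟨T 𝕜, L2 𝕜, inferInstance, inferInstance, inferInstance, x 𝕜, f 𝕜, consistent 𝕜, isMBasis 𝕜,
    isTBasis 𝕜, not_gamma 𝕜⟩
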